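import Pool.Agent.T6.H48.LU.Ang
import Pool.Agent.T6.H55.LU.Orn
import Pool.Agent.T6.H55.LU.Par
import Pool.Agent.T6.H55.LU.Sz
import Pool.Agent.T6.H55.LU.Tilt
import Pool.Agent.T6.H55.LU.Meas
import Pool.Agent.T6.H55.LU.Ibp
import Pool.Agent.T6.H55.LU.Obs
import Pool.Agent.T6.H55.LU.Equi
import Pool.Agent.T6.H55.LU.Pot1
import Pool.Agent.T6.H55.LU.Pota
import Pool.Agent.T6.H55.LU.Frm
import Pool.Agent.T6.H55.LU.Core
import Pool.Agent.T6.H55.LU.Bun
import Pool.Agent.T6.H55.LU.Bunt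
import Pool.Agent.T6.H55.LU.Fin

/-!
# No Lusin type approximation of forms by exterior derivatives with a uniform Lipschitz bound

For all `2 ≤ k + 1 ≤ n` and every constant `C` there are a finite measure `μ` on `ℝⁿ`, a Borel
`(k+1)`-form `ω` with comass at most one, orthogonal `μ`-a.e. to the `(k+1)`-dimensional
decomposability bundle of `μ`, and `ε > 0`, such that no `C¹` `k`-form `φ` whose components have
Lipschitz constant at most `C` satisfies `dφ = ω` on a compact set `K` with `μ (Kᶜ) < ε`.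

Idea. Random surfaces `z = Z(x, y)`, sums over rapidly increasing frequencies of the levels of the
multivalued angle of `sin πx + i sin πy`; `μ` is the law of `(x, y, w, Z(x, y), 0)`. All branches of
the surfaces are joined to each other, so a normal cycle has no component `e₀ ∧ ... ∧ e_k`; on the
other hand a jump of the branch moves only one of many levels, so that integration by parts in `x`
and in `y` remains true up to a small error, and an Ornstein type function gives the obstruction.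
-/

set_option autoImplicit false

open MeasureTheory Filter Topology
open scoped ENNReal NNReal

namespace Pool.Agent.Results.MP_507414_an.NoLusinForms

/-- `k`-covectors of `ℝⁿ`; the norm of Mathlib is the comass -/
abbrev Cov (n k : ℕ) : Type := (EuclideanSpace ℝ (Fin n)) [⋀^Fin k]→L[ℝ] ℝ

/-- differential forms of degree `k` on `ℝⁿ` -/
abbrev Form (n k : ℕ) : Type := EuclideanSpace ℝ (Fin n) → Cov n k

/-- smooth forms with compact support -/
def IsTest {n k : ℕ} (a : Form n k) : Prop :=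
  ContDiff ℝ ((⊤ : ℕ∞) : WithTop ℕ∞) a ∧ HasCompactSupport a

/-- the mass of the functional `T` in the open set `U`: the supremum of `T a` over the smooth forms
`a` with compact support in `U` and comass at most one -/
noncomputable def massOn {n k : ℕ} (T : Form n k → ℝ) (U : Set (EuclideanSpace ℝ (Fin n))) :
    ℝ≥0∞ :=
  ⨆ (a : Form n k) (_ : IsTest a) (_ : tsupport a ⊆ U) (_ : ∀ x, ‖a x‖ ≤ 1), ENNReal.ofReal (T a)

/-- `N`, restricted to the smooth forms with compact support, is a normal `(k+1)`-current with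
boundary zero: it is linear, of finite mass (this implies the continuity), and `N (dη) = 0` for all
smooth `k`-forms `η` with compact support -/
structure IsCycle {n k : ℕ} (N : Form n (k + 1) → ℝ) : Prop where
  add : ∀ a b, IsTest a → IsTest b → N (a + b) = N a + N b
  smul : ∀ (r : ℝ) (a : Form n (k + 1)), IsTest a → N (r • a) = r * N a
  mass : massOn N Set.univ < ⊤
  closed : ∀ η : Form n k, IsTest η → N (extDeriv η) = 0

/-- the `(k+1)`-vector `v` (a linear functional on the `(k+1)`-covectors) belongs to the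
`(k+1)`-dimensional decomposability bundle of `μ` at `x` -/
def InBundle {n k : ℕ} (μ : Measure (EuclideanSpace ℝ (Fin n))) (x : EuclideanSpace ℝ (Fin n))
    (v : Cov n (k + 1) →L[ℝ] ℝ) : Prop :=
  ∃ N : Form n (k + 1) → ℝ, IsCycle N ∧
    Tendsto (fun r : ℝ => massOn (fun a => N a - ∫ y, v (a y) ∂μ) (Metric.ball x r) /
      μ (Metric.ball x r)) (𝓝[>] 0) (𝓝 0)

theorem InBundle.conv {n k : ℕ} {μ : Measure (EuclideanSpace ℝ (Fin n))}
    [IsLocallyFiniteMeasure μ] {x : EuclideanSpace ℝ (Fin n)} {v : Cov n (k + 1) →L[ℝ] ℝ}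
    (h : InBundle μ x v) : Pool.Agent.T6.H55.LU.InBundle μ x v := by
  obtain ⟨N, hN, hlim⟩ := h
  let N' : Pool.Agent.T6.H55.LU.TestForm n (k + 1) →ₗ[ℝ] ℝ :=
    { toFun := fun a => N a.1
      map_add' := fun a b => hN.add a.1 b.1 a.2 b.2
      map_smul' := fun r a => hN.smul r a.1 a.2 }
  have key : ∀ (T : Pool.Agent.T6.H55.LU.TestForm n (k + 1) →ₗ[ℝ] ℝ) (T' : Form n (k + 1) → ℝ),
      (∀ a, T a = T' a.1) → ∀ U, Pool.Agent.T6.H55.LU.massOn T U ≤ massOn T' U := by
    intro T T' hT U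
    unfold Pool.Agent.T6.H55.LU.massOn massOn
    refine iSup_le fun a => iSup_le fun h1 => iSup_le fun h2 => ?_
    rw [hT a]
    exact le_iSup_of_le a.1 (le_iSup_of_le a.2 (le_iSup_of_le h1 (le_iSup_of_le h2 le_rfl)))
  refine ⟨N', ⟨lt_of_le_of_lt (key N' N (fun _ => rfl) _) hN.mass, ?_⟩, ?_⟩
  · intro η a ha
    have h1 : a.1 = extDeriv η.1 := funext ha
    change N a.1 = 0
    rw [h1]
    exact hN.closed η.1 η.2
  · refine tendsto_of_tendsto_of_tendsto_of_le_of_le tendsto_const_nhds hlim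
      (fun _ => bot_le) fun r => ?_
    exact ENNReal.div_le_div_right (key _ _ (fun _ => rfl) _) _

theorem result (n k : ℕ) (hk : 1 ≤ k) (hkn : k + 1 ≤ n) (C : ℝ≥0) :
    ∃ (μ : Measure (EuclideanSpace ℝ (Fin n))) (ω : Form n (k + 1)) (ε : ℝ≥0∞),
      IsFiniteMeasure μ ∧ @Measurable _ _ _ (borel _) ω ∧ (∀ x, ‖ω x‖ ≤ 1) ∧ 0 < ε ∧
      (∀ᵐ x ∂μ, ∀ v : Cov n (k + 1) →L[ℝ] ℝ, InBundle μ x v → v (ω x) = 0) ∧
      ¬ ∃ (φ : Form n k) (K : Set (EuclideanSpace ℝ (Fin n))),
        ContDiff ℝ 1 φ ∧ IsCompact K ∧ μ Kᶜ < ε ∧ (∀ x ∈ K, extDeriv φ x = ω x) ∧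
        ∀ i : Fin k → Fin n, StrictMono i →
          LipschitzWith C fun x => φ x fun a => EuclideanSpace.single (i a) 1 := by
  have hS := Pool.Agent.T6.H55.LU.sz Pool.Agent.T6.H55.LU.ang
  have hM := Pool.Agent.T6.H55.LU.meas Pool.Agent.T6.H55.LU.ang hS
  have hT := Pool.Agent.T6.H55.LU.tilt Pool.Agent.T6.H55.LU.ang hS
  have hI := Pool.Agent.T6.H55.LU.ibp Pool.Agent.T6.H55.LU.ang hS hM
  have hE := Pool.Agent.T6.H55.LU.equi Pool.Agent.T6.H55.LU.ang hS hM
  have hP := Pool.Agent.T6.H55.LU.pota Pool.Agent.T6.H55.LU.ang hS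
    (Pool.Agent.T6.H55.LU.pot1 Pool.Agent.T6.H55.LU.ang)
  have hF := Pool.Agent.T6.H55.LU.frm
  have hC := Pool.Agent.T6.H55.LU.core Pool.Agent.T6.H55.LU.ang hS hM hE hP hF
  obtain ⟨μ, hμ, ω, ε, h1, h2, h3, h4, h5⟩ :=
    Pool.Agent.T6.H55.LU.fin (Pool.Agent.T6.H55.LU.par Pool.Agent.T6.H55.LU.ang) hM
      (Pool.Agent.T6.H55.LU.obs Pool.Agent.T6.H55.LU.orn hS hT hM hI) hF
      (Pool.Agent.T6.H55.LU.bun hT hM hC) (Pool.Agent.T6.H55.LU.bunTop hF) n k hk hkn C
  refine ⟨μ, ω, ε, hμ, h1, h2, h3, ?_, ?_⟩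
  · filter_upwards [h4] with x hx v hv using hx v hv.conv
  · rintro ⟨φ, K, hφ, hK, hKε, hd, hL⟩
    obtain ⟨x, hx, hne⟩ := h5 φ hφ hL K hK hKε
    exact hne (hd x hx)

end Pool.Agent.Results.MP_507414_an.NoLusinForms
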